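import Pool.Agent.Helper54.DI.StmtsA

namespace Pool.Agent.Helper54.DI

open Finset Filter Topology

/-- quantitative midpoint convexity near a point with positive second derivative -/
theorem GEOH_mid (g : ℝ → ℝ) (hg : ContDiffAt ℝ 3 g 0) (h2 : 0 < iteratedDeriv 2 g 0) :
    ∃ r > 0, ∃ c > 0, ∀ s t : ℝ, |s| < r → |t| < r →
      g ((s + t) / 2) + c * (s - t) ^ 2 ≤ (g s + g t) / 2 := by
  set c1 : ℝ := iteratedDeriv 2 g 0 / 4 with hc1
  have hc10 : 0 < c1 := by positivity
  have hq : ContDiff ℝ 3 (fun x : ℝ => c1 * x ^ 2) := by fun_prop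
  set h : ℝ → ℝ := g - fun x => c1 * x ^ 2 with hh
  have hh3 : ContDiffAt ℝ 3 h 0 := hg.sub hq.contDiffAt
  have hev : ∀ᶠ y in 𝓝 (0 : ℝ), ContDiffAt ℝ 3 h y := hh3.eventually (by simp)
  have hc2 : ContinuousAt (iteratedDeriv 2 h) 0 := by
    have h := (hh3.iteratedFDeriv_right (m := 0) (i := 2) (by norm_num)).continuousAt
    have h' := (ContinuousMultilinearMap.apply ℝ (fun _ : Fin 2 => ℝ) ℝ
      (fun _ => 1)).continuous.continuousAt.comp h
    exact h'
  have e1 : iteratedDeriv 2 (fun x : ℝ => c1 * x ^ 2) 0 = 2 * c1 := by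
    rw [iteratedDeriv_succ, iteratedDeriv_one]
    have e : deriv (fun x : ℝ => c1 * x ^ 2) = fun x => c1 * (2 * x) := by
      funext x
      simp
    rw [e]
    simp
    ring
  have e2 : iteratedDeriv 2 h 0 = iteratedDeriv 2 g 0 - 2 * c1 := by
    rw [← e1, hh]
    exact iteratedDeriv_sub ((hg.of_le (by norm_num))) ((hq.contDiffAt).of_le (by norm_num))
  have hpos : 0 < iteratedDeriv 2 h 0 := by
    rw [e2, hc1]; linarith
  have h1 : ∀ᶠ y in 𝓝 (0 : ℝ), 0 < iteratedDeriv 2 h y := hc2.eventually (lt_mem_nhds hpos)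
  obtain ⟨r, hr, hball⟩ := Metric.eventually_nhds_iff.1 (hev.and h1)
  have hI : ∀ x ∈ Set.Ioo (-r) r, ContDiffAt ℝ 3 h x ∧ 0 < iteratedDeriv 2 h x := by
    intro x hx
    exact hball (by rw [Real.dist_eq, sub_zero, abs_lt]; exact hx)
  have hsc : StrictConvexOn ℝ (Set.Ioo (-r) r) h := by
    apply strictConvexOn_of_deriv2_pos' (convex_Ioo _ _)
    · intro x hx
      exact (hI x hx).1.continuousAt.continuousWithinAt
    · intro x hx
      have := (hI x hx).2
      rwa [iteratedDeriv_eq_iterate] at this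
  refine ⟨r, hr, c1 / 4, by positivity, fun s t hs ht => ?_⟩
  have := hsc.convexOn.2 (show s ∈ Set.Ioo (-r) r from abs_lt.1 hs)
    (show t ∈ Set.Ioo (-r) r from abs_lt.1 ht) (show (0 : ℝ) ≤ 1 / 2 by norm_num)
    (show (0 : ℝ) ≤ 1 / 2 by norm_num) (by norm_num)
  simp only [smul_eq_mul, hh, Pi.sub_apply] at this
  have e3 : 1 / 2 * s + 1 / 2 * t = (s + t) / 2 := by ring
  rw [e3] at this
  nlinarith [this]

theorem GEOH_inj {d k : ℕ} (φ : NM d k) : Function.Injective φ.I := by
  intro i j hij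
  by_contra hne
  have h1 := φ.hM i
  have h2 := φ.hM j
  rw [hij, h2] at h1
  have := congrFun h1 i
  rw [Pi.single_apply, if_neg hne, Pi.single_apply, if_pos rfl] at this
  exact one_ne_zero this.symm

theorem st_GEOH (hDIR : ST_DIR) (hTRICK : ST_TRICK) (hNB : ST_NB) : ST_GEOH := by
  intro k d A φ w J l F H ε hε hH0 hH1 hcone hl hF hFw hdep hid hna hJ hAF
  obtain ⟨hcont, hI, haff⟩ := hNB d k φ
  -- the side containing the lower part
  obtain ⟨T1, hT1, hTF⟩ : ∃ T1 : Set (Fin k → ℝ), (T1 = A ∨ T1 = Aᶜ) ∧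
      ∀ᶠ x in 𝓝 w, (x l < F x l → nev φ x ∈ T1) ∧ (F x l < x l → nev φ x ∉ T1) := by
    rcases hAF with h | h
    · exact ⟨A, Or.inl rfl, h⟩
    · refine ⟨Aᶜ, Or.inr rfl, h.mono fun x hx => ⟨fun h1 => hx.1 h1, fun h1 h2 => h2 (hx.2 h1)⟩⟩
  obtain ⟨δ, hδ, hball⟩ := Metric.eventually_nhds_iff.1 hTF
  set P0 := nev φ w with hP0
  set η := min ε δ with hη
  have hη0 : 0 < η := lt_min hε hδ
  -- the box
  have ha : ∀ i, ∃ q : ℚ, P0 i - η < q ∧ (q : ℝ) < P0 i := fun i => exists_rat_btwn (by linarith)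
  have hb : ∀ i, ∃ q : ℚ, P0 i < q ∧ (q : ℝ) < P0 i + η := fun i => exists_rat_btwn (by linarith)
  choose a ha1 ha2 using ha
  choose b hb1 hb2 using hb
  have hbox : ∀ p, Bx a b p → ∀ i, |p i - P0 i| < η := by
    intro p hp i
    rw [abs_lt]
    constructor
    · linarith [(hp i).1, ha1 i]
    · linarith [(hp i).2, hb2 i]
  have hboxball : ∀ p, Bx a b p → p ∈ Metric.ball P0 ε := by
    intro p hp
    rw [Metric.mem_ball, dist_pi_lt_iff hε]
    intro i
    rw [Real.dist_eq]
    exact lt_of_lt_of_le (hbox p hp i) (min_le_left _ _)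
  have hboxw : ∀ z, Bx a b (nev φ z) →
      (z l < F z l → nev φ z ∈ T1) ∧ (F z l < z l → nev φ z ∉ T1) := by
    intro z hz
    apply hball
    rw [dist_pi_lt_iff hδ]
    intro j
    rw [Real.dist_eq]
    have := hbox _ hz (φ.I j)
    rw [hI z j, hP0, hI w j] at this
    exact lt_of_lt_of_le this (min_le_right _ _)
  -- the open set of good parameters
  have hU0 : ∀ᶠ p : (Fin d → ℝ) × ℝ in 𝓝 (w, (0 : ℝ)),
      ∀ i, (a i : ℝ) < nev φ (F p.1 + Pi.single l p.2) i ∧
        nev φ (F p.1 + Pi.single l p.2) i < b i := by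
    have hc : ContinuousAt (fun p : (Fin d → ℝ) × ℝ => nev φ (F p.1 + Pi.single l p.2))
        (w, (0 : ℝ)) := by
      apply hcont.continuousAt.comp
      apply ContinuousAt.add
      · exact ContinuousAt.comp (f := fun p : (Fin d → ℝ) × ℝ => p.1) (g := F) hF.continuousAt
          continuous_fst.continuousAt
      · have : Continuous (fun c : ℝ => (Pi.single l c : Fin d → ℝ)) := by
          apply continuous_pi
          intro j
          by_cases hj : j = l
          · subst hj
            simp only [Pi.single_eq_same]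
            exact continuous_id'
          · simp only [Pi.single_eq_of_ne hj]
            exact continuous_const
        exact (this.comp continuous_snd).continuousAt
    rw [eventually_all]
    intro i
    have hci := (continuousAt_pi.1 hc) i
    have e : nev φ (F w + Pi.single l (0 : ℝ)) i = P0 i := by rw [hFw, Pi.single_zero, add_zero]
    have h1 := hci.eventually (lt_mem_nhds
      (show (a i : ℝ) < nev φ (F w + Pi.single l (0 : ℝ)) i by rw [e]; exact ha2 i))
    have h2 := hci.eventually (gt_mem_nhds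
      (show nev φ (F w + Pi.single l (0 : ℝ)) i < (b i : ℝ) by rw [e]; exact hb1 i))
    exact h1.and h2
  rw [nhds_prod_eq] at hU0
  obtain ⟨pU, hpU, pc, hpc, hUc⟩ := eventually_prod_iff.1 hU0
  obtain ⟨U, hUsub, hUo, hUw⟩ := mem_nhds_iff.1 hpU
  obtain ⟨rc, hrc, hcsub⟩ := Metric.eventually_nhds_iff.1 hpc
  have hG : ContDiffAt ℝ 3 (fun x => F x l) w := contDiffAt_pi.1 hF l
  obtain ⟨y, u, hyU, hf, hf2⟩ := hDIR d (fun x => F x l) w hG hna U (hUo.mem_nhds hUw)
  set g : ℝ → Fin d → ℝ := fun t i => (y i : ℝ) + t * u i with hg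
  have hgc : Continuous g := by
    rw [hg]
    exact continuous_pi fun i => by fun_prop
  have hg0 : g 0 = fun i => (y i : ℝ) := by
    funext i; simp [hg]
  -- choice of the side
  obtain ⟨T, s, hT, hs, hspos, hside⟩ : ∃ (T : Set (Fin k → ℝ)) (s : ℤ), (T = A ∨ T = Aᶜ) ∧
      (s = 1 ∨ s = -1) ∧ 0 < (s : ℝ) * iteratedDeriv 2 (fun t : ℝ => F (g t) l) 0 ∧
      ∀ z, Bx a b (nev φ z) → ((s : ℝ) * (z l - F z l) < 0 → nev φ z ∈ T) ∧
        (0 < (s : ℝ) * (z l - F z l) → nev φ z ∉ T) := by
    rcases lt_or_gt_of_ne hf2 with h | h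
    · refine ⟨T1ᶜ, -1, ?_, Or.inr rfl, ?_, fun z hz => ⟨fun h1 => ?_, fun h1 h2 => ?_⟩⟩
      · rcases hT1 with h1 | h1
        · right; rw [h1]
        · left; rw [h1, compl_compl]
      · push_cast
        have h' : iteratedDeriv 2 (fun t : ℝ => F (g t) l) 0 < 0 := h
        linarith
      · push_cast at h1
        exact (hboxw z hz).2 (by linarith)
      · push_cast at h1
        exact h2 ((hboxw z hz).1 (by linarith))
    · refine ⟨T1, 1, hT1, Or.inl rfl, ?_, fun z hz => ⟨fun h1 => ?_, fun h1 => ?_⟩⟩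
      · push_cast
        have h' : 0 < iteratedDeriv 2 (fun t : ℝ => F (g t) l) 0 := h
        linarith
      · push_cast at h1
        exact (hboxw z hz).1 (by linarith)
      · push_cast at h1
        exact (hboxw z hz).2 (by linarith)
  have hss : (s : ℝ) * s = 1 := by
    rcases hs with rfl | rfl <;> norm_num
  have hsabs : |(s : ℝ)| = 1 := by
    rcases hs with rfl | rfl <;> norm_num
  obtain ⟨r1, hr1, c, hc0, hmid⟩ := GEOH_mid (fun t : ℝ => (s : ℝ) * F (g t) l)
    (contDiffAt_const.mul hf) (by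
      have : iteratedDeriv 2 (fun t : ℝ => (s : ℝ) * F (g t) l) 0 =
          (s : ℝ) * iteratedDeriv 2 (fun t : ℝ => F (g t) l) 0 := by
        have := iteratedDeriv_const_mul (n := 2) (s : ℝ) (f := fun t : ℝ => F (g t) l) (x := 0)
          (hf.of_le (by norm_num))
        exact this
      rw [this]; exact hspos)
  have hUr : ∀ᶠ t in 𝓝 (0 : ℝ), g t ∈ U := by
    apply hgc.continuousAt.eventually
    rw [hg0]
    exact hUo.mem_nhds hyU
  obtain ⟨r2, hr2, hUr2⟩ := Metric.eventually_nhds_iff.1 hUr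
  set r := min r1 r2 with hr
  have hr0 : 0 < r := lt_min hr1 hr2
  set m := 3 ^ H.length with hm
  obtain ⟨ρ, hρ0, hρr⟩ := exists_rat_btwn (show (0 : ℝ) < r / 2 by linarith)
  have hρ0' : 0 < ρ := by exact_mod_cast hρ0
  have hinj := GEOH_inj φ
  set y0 : Fin k → ℚ := Function.extend φ.I y 0 with hy0
  set u0 : Fin k → ℚ := Function.extend φ.I u 0 with hu0
  have hy0' : ∀ j, y0 (φ.I j) = y j := fun j => hinj.extend_apply _ _ _
  have hu0' : ∀ j, u0 (φ.I j) = u j := fun j => hinj.extend_apply _ _ _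
  -- good parameters
  have hgood : ∀ t, |t| < r → ∀ e : ℝ, |e| < rc →
      (∀ i, (a i : ℝ) < nev φ (F (g t) + Pi.single l e) i ∧
        nev φ (F (g t) + Pi.single l e) i < b i) := by
    intro t ht e he
    have h1 : g t ∈ U := by
      apply hUr2
      rw [Real.dist_eq, sub_zero]
      exact lt_of_lt_of_le ht (min_le_right _ _)
    exact hUc (hUsub h1) (hcsub (by rw [Real.dist_eq, sub_zero]; exact he))
  have hgoodB : ∀ t, |t| < r → ∀ e : ℝ, |e| < rc → Bx a b (nev φ (F (g t) + Pi.single l e)) :=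
    fun t ht e he i => ⟨(hgood t ht e he i).1.le, (hgood t ht e he i).2.le⟩
  have hFs : ∀ t e, F (F (g t) + Pi.single l e) = F (g t) := by
    intro t e
    apply hdep
    intro j hj
    have hjl : j ≠ l := fun h => hl (h ▸ hj)
    rw [Pi.add_apply, hid _ j hj, Pi.single_apply, if_neg hjl, add_zero]
  -- step of the progression
  have hm1 : (0 : ℝ) < (m : ℝ) + 1 := by positivity
  set σ : ℝ := r / (2 * (m + 1)) with hσ
  have hσ0 : 0 < σ := by positivity
  set ε₀ : ℝ := min (rc / 4) (c * σ ^ 2 / 4) with hε₀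
  have hε₀0 : 0 < ε₀ := lt_min (by positivity) (by positivity)
  -- families of points
  have htup : ∀ x : ℝ, |x| ≤ ρ → ∀ e : ℝ, 0 < e → e < rc → e < c * σ ^ 2 →
      Tup T m a b (nev φ (F (g x) + Pi.single l (-(s * e)))) := by
    intro x hx e he herc hec
    have hlt : ∀ i : Fin (m + 1), |x + i * σ| < r := by
      intro i
      have hi : (i : ℝ) ≤ m := by exact_mod_cast Nat.lt_succ_iff.1 i.2
      have h1 : (i : ℝ) * σ ≤ r / 2 := by
        rw [hσ]
        calc (i : ℝ) * (r / (2 * (m + 1))) ≤ (m + 1) * (r / (2 * (m + 1))) := by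
              apply mul_le_mul_of_nonneg_right (by linarith) (by positivity)
          _ = r / 2 := by field_simp
      have h0 : 0 ≤ (i : ℝ) * σ := by positivity
      calc |x + i * σ| ≤ |x| + |(i : ℝ) * σ| := abs_add_le _ _
        _ = |x| + i * σ := by rw [abs_of_nonneg h0]
        _ < r := by linarith
    have habs : |(-(s * e) : ℝ)| < rc := by
      rw [abs_neg, abs_mul, hsabs, one_mul, abs_of_pos he]; exact herc
    refine ⟨fun i => nev φ (F (g (x + i * σ)) + Pi.single l (-(s * e))), ?_, ?_, ?_⟩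
    · simp
    · intro i
      have hB := hgoodB _ (hlt i) _ habs
      refine ⟨(hside _ hB).1 ?_, hB⟩
      rw [hFs, Pi.add_apply, Pi.single_eq_same]
      have : (s : ℝ) * (F (g (x + i * σ)) l + -(s * e) - F (g (x + i * σ)) l) = -(s * s * e) := by
        ring
      rw [this, hss]; linarith
    · intro i j hij
      set v1 := F (g (x + i * σ)) + Pi.single l (-((s : ℝ) * e)) with hv1
      set v2 := F (g (x + j * σ)) + Pi.single l (-((s : ℝ) * e)) with hv2
      set z : Fin d → ℝ := (1 / 2 : ℝ) • v1 + (1 / 2 : ℝ) • v2 with hz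
      have hM : (fun l => (nev φ v1 l + nev φ v2 l) / 2) = nev φ z := by
        rw [hz, haff v1 v2 (1 / 2) (1 / 2) (by norm_num)]
        funext l
        simp only [Pi.add_apply, Pi.smul_apply, smul_eq_mul]
        ring
      show (fun l => (nev φ v1 l + nev φ v2 l) / 2) ∉ T
      rw [hM]
      have hzb : Bx a b (nev φ z) := by
        intro l'
        rw [← hM]
        have g1 := hgoodB _ (hlt i) _ habs l'
        have g2 := hgoodB _ (hlt j) _ habs l'
        rw [← hv1] at g1
        rw [← hv2] at g2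
        constructor
        · show (a l' : ℝ) ≤ (nev φ v1 l' + nev φ v2 l') / 2
          linarith [g1.1, g2.1]
        · show (nev φ v1 l' + nev φ v2 l') / 2 ≤ (b l' : ℝ)
          linarith [g1.2, g2.2]
      apply (hside z hzb).2
      have hzJ : ∀ j' ∈ J, z j' = g ((x + i * σ + (x + j * σ)) / 2) j' := by
        intro j' hj'
        have hjl : j' ≠ l := fun h => hl (h ▸ hj')
        simp only [hz, Pi.add_apply, Pi.smul_apply, smul_eq_mul]
        rw [hv1, hv2, Pi.add_apply, Pi.add_apply, hid _ j' hj', hid _ j' hj',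
          Pi.single_eq_of_ne hjl]
        simp only [hg]
        ring
      have e1 : F z = F (g ((x + i * σ + (x + j * σ)) / 2)) := hdep _ _ hzJ
      have hzl : z l = (F (g (x + i * σ)) l + F (g (x + j * σ)) l) / 2 - s * e := by
        simp only [hz, Pi.add_apply, Pi.smul_apply, smul_eq_mul]
        rw [hv1, hv2, Pi.add_apply, Pi.add_apply, Pi.single_eq_same]
        ring
      have hmm := hmid (x + i * σ) (x + j * σ) (lt_of_lt_of_le (hlt i) (min_le_left _ _))
        (lt_of_lt_of_le (hlt j) (min_le_left _ _))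
      rw [hzl, e1]
      have hij' : (i : ℝ) + 1 ≤ j := by exact_mod_cast hij
      have hd : σ ^ 2 ≤ (x + i * σ - (x + j * σ)) ^ 2 := by
        have h1 : σ ≤ (j - i : ℝ) * σ := by nlinarith
        have h2 : (x + i * σ - (x + j * σ)) ^ 2 = ((j - i : ℝ) * σ) ^ 2 := by ring
        rw [h2]
        exact pow_le_pow_left₀ hσ0.le h1 2
      have hd' : c * σ ^ 2 ≤ c * (x + i * σ - (x + j * σ)) ^ 2 :=
        mul_le_mul_of_nonneg_left hd hc0.le
      have e5 : (s : ℝ) * ((F (g (x + i * σ)) l + F (g (x + j * σ)) l) / 2 - s * e -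
          F (g ((x + i * σ + (x + j * σ)) / 2)) l) =
          (s * F (g (x + i * σ)) l + s * F (g (x + j * σ)) l) / 2 -
          s * F (g ((x + i * σ + (x + j * σ)) / 2)) l - (s * s) * e := by ring
      rw [e5, hss]
      linarith
  refine ⟨T, m, a, b, J.image φ.I, φ.I l, y0, u0, ρ, ε₀, fun t : ℝ => F (g t) l, hT, hρ0', hε₀0,
    hf, hf2, Or.inr ⟨s, ?_, ?_⟩⟩
  · -- soundness
    rintro x yy ε' ⟨hx, P, Q, hP, hQ, hPC, hPl, hQl, hBR, hRT⟩
    have hran : ∀ P, Tup T m a b P → P ∈ Set.range (nev φ) := by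
      intro P hTup
      apply hTRICK k d A T φ H m a b hT le_rfl hH0 hH1 _ P hTup
      intro p q hp hq hpr hqr hs
      exact hcone p (hboxball p hp) q (hboxball q hq) hpr hqr hs
    obtain ⟨z, rfl⟩ := hran P hP
    obtain ⟨z', rfl⟩ := hran Q hQ
    obtain ⟨p, hp0, hpT, -⟩ := hP
    have h0 := hpT 0
    rw [hp0] at h0
    have hzJ : ∀ j ∈ J, z j = g x j := by
      intro j hj
      have := (hPC (φ.I j) (Finset.mem_image_of_mem _ hj)).1
      rw [hI z j, hy0', hu0'] at this
      exact this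
    have hzJ' : ∀ j ∈ J, z' j = g x j := by
      intro j hj
      have := (hPC (φ.I j) (Finset.mem_image_of_mem _ hj)).2
      rw [hI z' j, hy0', hu0'] at this
      exact this
    rw [hI] at hPl hQl
    set z'' : Fin d → ℝ := (2 : ℝ) • z + (-1 : ℝ) • z' with hz''
    have hR : (fun i => 2 * nev φ z i - nev φ z' i) = nev φ z'' := by
      rw [hz'', haff z z' 2 (-1) (by norm_num)]
      funext i
      simp only [Pi.add_apply, Pi.smul_apply, smul_eq_mul]
      ring
    rw [hR] at hBR hRT
    have hzJ'' : ∀ j ∈ J, z'' j = g x j := by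
      intro j hj
      simp only [hz'', Pi.add_apply, Pi.smul_apply, smul_eq_mul]
      rw [hzJ j hj, hzJ' j hj]; ring
    have hFz : F z = F (g x) := hdep _ _ hzJ
    have hFz'' : F z'' = F (g x) := hdep _ _ hzJ''
    have hzl'' : z'' l = yy + s * ε' := by
      simp only [hz'', Pi.add_apply, Pi.smul_apply, smul_eq_mul]
      rw [hPl, hQl]; ring
    have k1 : ¬ (0 < (s : ℝ) * (z l - F z l)) := fun h => (hside z h0.2).2 h h0.1
    have k2 : ¬ ((s : ℝ) * (z'' l - F z'' l) < 0) := fun h => hRT ((hside z'' hBR).1 h)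
    rw [hFz, hPl] at k1
    rw [hFz'', hzl''] at k2
    have e1 : (s : ℝ) * (yy - s * ε' - F (g x) l) = s * (yy - F (g x) l) - (s * s) * ε' := by ring
    have e2 : (s : ℝ) * (yy + s * ε' - F (g x) l) = s * (yy - F (g x) l) + (s * s) * ε' := by ring
    rw [e1, hss] at k1
    rw [e2, hss] at k2
    have e3 : |yy - F (g x) l| = |(s : ℝ) * (yy - F (g x) l)| := by
      rw [abs_mul, hsabs, one_mul]
    show |yy - F (g x) l| ≤ ε'
    rw [e3, abs_le]
    constructor
    · linarith
    · linarith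
  · -- completeness
    intro x e hx he0 he
    have he1 : e ≤ rc / 4 := he.trans (min_le_left _ _)
    have he2 : e ≤ c * σ ^ 2 / 4 := he.trans (min_le_right _ _)
    have hcs : 0 < c * σ ^ 2 := by positivity
    have hxr : |x| < r := by linarith
    have hR : (fun i => 2 * nev φ (F (g x) + Pi.single l (-((s : ℝ) * e))) i -
        nev φ (F (g x) + Pi.single l (-((s : ℝ) * (3 * e)))) i) =
        nev φ (F (g x) + Pi.single l ((s : ℝ) * e)) := by
      have hz : F (g x) + Pi.single l ((s : ℝ) * e) =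
          (2 : ℝ) • (F (g x) + Pi.single l (-((s : ℝ) * e))) +
          (-1 : ℝ) • (F (g x) + Pi.single l (-((s : ℝ) * (3 * e)))) := by
        funext j
        by_cases hj : j = l
        · subst hj
          simp only [Pi.add_apply, Pi.smul_apply, smul_eq_mul, Pi.single_eq_same]
          ring
        · simp only [Pi.add_apply, Pi.smul_apply, smul_eq_mul, Pi.single_eq_of_ne hj]
          ring
      rw [hz, haff _ _ 2 (-1) (by norm_num)]
      funext i
      simp only [Pi.add_apply, Pi.smul_apply, smul_eq_mul]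
      ring
    have hcoord : ∀ e' : ℝ, ∀ j ∈ J.image φ.I,
        nev φ (F (g x) + Pi.single l e') j = y0 j + x * u0 j := by
      intro e' j hj
      obtain ⟨j', hj', rfl⟩ := Finset.mem_image.1 hj
      have hjl : j' ≠ l := fun h => hl (h ▸ hj')
      rw [hI, Pi.add_apply, hid _ j' hj', Pi.single_eq_of_ne hjl, add_zero, hy0', hu0']
    have hB : Bx a b (nev φ (F (g x) + Pi.single l ((s : ℝ) * e))) := by
      apply hgoodB x hxr
      rw [abs_mul, hsabs, one_mul, abs_of_pos he0]
      linarith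
    refine ⟨hx, nev φ (F (g x) + Pi.single l (-((s : ℝ) * e))),
      nev φ (F (g x) + Pi.single l (-((s : ℝ) * (3 * e)))), htup x hx e he0 (by linarith)
      (by linarith), htup x hx (3 * e) (by linarith) (by linarith) (by linarith), ?_, ?_, ?_, ?_, ?_⟩
    · intro j hj
      exact ⟨hcoord _ j hj, hcoord _ j hj⟩
    · rw [hI, Pi.add_apply, Pi.single_eq_same]
      show F (g x) l + -(s * e) = F (g x) l - s * e
      ring
    · rw [hI, Pi.add_apply, Pi.single_eq_same]
      show F (g x) l + -(s * (3 * e)) = F (g x) l - 3 * (s * e)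
      ring
    · rw [hR]; exact hB
    · rw [hR]
      apply (hside _ hB).2
      rw [hFs, Pi.add_apply, Pi.single_eq_same]
      have : (s : ℝ) * (F (g x) l + s * e - F (g x) l) = (s * s) * e := by ring
      rw [this, hss]; linarith

end Pool.Agent.Helper54.DI
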